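import Pool.Agent.N718.DC.Stm

/-!
# Project DC (helper718): LOC, comparison of the local densities (helper767)
-/

set_option autoImplicit false

namespace Pool.Agent.N767.DC

open Finset Pool.Agent.N718.DC

/-! ### counting in residue classes -/

lemma cls (p : ℕ) (hp : p.Prime) (c d a b : ℤ) (hc : ¬ (p : ℤ) ∣ c) (hab : a ≤ b + 1) :
    (((Icc a b).filter (fun k => (p : ℤ) ∣ c * k + d)).card : ℝ) ≤ ((b : ℝ) - a + 1) / p + 1 := by
  have hp0 : (0 : ℝ) < p := by exact_mod_cast hp.pos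
  have hpZ : Prime (p : ℤ) := Nat.prime_iff_prime_int.1 hp
  have hnn : (0 : ℝ) ≤ ((b : ℝ) - a + 1) / p := by
    have : (a : ℝ) ≤ b + 1 := by exact_mod_cast hab
    apply div_nonneg _ hp0.le
    linarith
  by_cases h : ∃ k0 ∈ (Icc a b).filter (fun k => (p : ℤ) ∣ c * k + d), True
  · obtain ⟨k0, hk0, _⟩ := h
    rw [mem_filter] at hk0
    have hsub : (Icc a b).filter (fun k => (p : ℤ) ∣ c * k + d) ⊆
        (Ioc (a - 1) b).filter (fun k => k ≡ k0 [ZMOD (p : ℤ)]) := by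
      intro k hk
      rw [mem_filter, mem_Icc] at hk
      rw [mem_filter, mem_Ioc]
      refine ⟨⟨by omega, hk.1.2⟩, ?_⟩
      have h1 : (p : ℤ) ∣ c * (k - k0) := by
        have := dvd_sub hk.2 hk0.2
        have e : c * k + d - (c * k0 + d) = c * (k - k0) := by ring
        rwa [e] at this
      rcases hpZ.dvd_or_dvd h1 with h2 | h2
      · exact absurd h2 hc
      · exact (Int.modEq_iff_dvd.2 (by
          have e : k0 - k = -(k - k0) := by ring
          rw [e]; exact (dvd_neg.2 h2)))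
    have h2 := card_le_card hsub
    have h3 : (((Ioc (a - 1) b).filter (fun k => k ≡ k0 [ZMOD (p : ℤ)])).card : ℝ) ≤
        ((b : ℝ) - a + 1) / p + 1 := by
      have h4 := Int.Ioc_filter_modEq_card (a - 1) b (r := (p : ℤ)) (by exact_mod_cast hp.pos) k0
      have h4' : (((Ioc (a - 1) b).filter (fun k => k ≡ k0 [ZMOD (p : ℤ)])).card : ℝ) =
          ((max (⌊((b : ℚ) - k0) / ((p : ℤ) : ℚ)⌋ - ⌊(((a - 1 : ℤ) : ℚ) - k0) / ((p : ℤ) : ℚ)⌋) 0 : ℤ) : ℝ) := by
        exact_mod_cast congrArg (fun z : ℤ => (z : ℝ)) h4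
      rw [h4', Int.cast_max]
      apply max_le
      · have h5 : ((⌊((b : ℚ) - k0) / ((p : ℤ) : ℚ)⌋ : ℤ) : ℚ) ≤ ((b : ℚ) - k0) / ((p : ℤ) : ℚ) :=
          Int.floor_le _
        have h6 := Int.sub_one_lt_floor ((((a - 1 : ℤ) : ℚ) - k0) / ((p : ℤ) : ℚ))
        have h7 : (((⌊((b : ℚ) - k0) / ((p : ℤ) : ℚ)⌋ - ⌊(((a - 1 : ℤ) : ℚ) - k0) / ((p : ℤ) : ℚ)⌋ : ℤ)) : ℚ) ≤
            ((b : ℚ) - a + 1) / p + 1 := by
          push_cast at h5 h6 ⊢
          have e : ((b : ℚ) - k0) / p - ((a : ℚ) - 1 - k0) / p = ((b : ℚ) - a + 1) / p := by ring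
          linarith
        exact_mod_cast h7
      · push_cast
        linarith
    have h2' : (((Icc a b).filter (fun k => (p : ℤ) ∣ c * k + d)).card : ℝ) ≤
      (((Ioc (a - 1) b).filter (fun k => k ≡ k0 [ZMOD (p : ℤ)])).card : ℝ) := by exact_mod_cast h2
    exact h2'.trans h3
  · have h1 : (Icc a b).filter (fun k => (p : ℤ) ∣ c * k + d) = ∅ := by
      rw [eq_empty_iff_forall_notMem]
      intro k hk
      exact h ⟨k, hk, trivial⟩
    rw [h1, card_empty, Nat.cast_zero]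
    linarith

lemma card_Icc_real (a b : ℤ) (hab : a ≤ b + 1) : ((Icc a b).card : ℝ) = (b : ℝ) - a + 1 := by
  rw [Int.card_Icc]
  have h : (((b + 1 - a).toNat : ℤ) : ℝ) = ((b + 1 - a : ℤ) : ℝ) := by
    rw [Int.toNat_of_nonneg (by omega)]
  have h' : (((b + 1 - a).toNat : ℕ) : ℝ) = ((b + 1 - a : ℤ) : ℝ) := by exact_mod_cast h
  rw [h']
  push_cast
  ring

lemma card_bx (H : ℕ) (u v : ℤ × ℤ) (hb : inbox H u v) : ((bx u v).card : ℝ) = ar u v := by
  unfold bx ar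
  rw [card_product, Nat.cast_mul, card_Icc_real _ _ hb.2.1, card_Icc_real _ _ hb.2.2.2.2.1]

/-- the number of points of the box at which the form is divisible by `p` -/
lemma cntG (H : ℕ) (u v : ℤ × ℤ) (hb : inbox H u v) (s : ℤ) (hs : s = 1 ∨ s = -1) (L q : ℕ)
    (y r : ℤ) (p : ℕ) (hp : p.Prime) (hL : ¬ p ∣ L) (hgy : p ∣ q → (p : ℤ) ∣ y → p ∣ L) :
    (((bx u v).filter (fun b => (p : ℤ) ∣ G s L q y r b)).card : ℝ) ≤
      ar u v / p + (2 * H + 1) := by
  obtain ⟨b1, b2, b3, b4, b5, b6⟩ := hb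
  have hp0 : (0 : ℝ) < p := by exact_mod_cast hp.pos
  have hpZ : Prime (p : ℤ) := Nat.prime_iff_prime_int.1 hp
  have hLZ : ¬ (p : ℤ) ∣ (L : ℤ) := fun h => hL (by exact_mod_cast h)
  have b1' : -(H : ℝ) ≤ u.1 := by exact_mod_cast b1
  have b2' : (u.1 : ℝ) ≤ v.1 + 1 := by exact_mod_cast b2
  have b3' : (v.1 : ℝ) ≤ H := by exact_mod_cast b3
  have b4' : -(H : ℝ) ≤ u.2 := by exact_mod_cast b4
  have b5' : (u.2 : ℝ) ≤ v.2 + 1 := by exact_mod_cast b5
  have b6' : (v.2 : ℝ) ≤ H := by exact_mod_cast b6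
  have hG : ∀ b : ℤ × ℤ, (p : ℤ) ∣ G s L q y r b ↔
      (p : ℤ) ∣ (L : ℤ) * ((q : ℤ) * b.1 + y * b.2) + r := by
    intro b
    unfold G
    rcases hs with rfl | rfl
    · rw [one_mul]
    · rw [neg_one_mul, dvd_neg]
  have e1 : (((bx u v).filter (fun b => (p : ℤ) ∣ G s L q y r b)).card : ℝ) =
      ∑ b ∈ bx u v, (if (p : ℤ) ∣ (L : ℤ) * ((q : ℤ) * b.1 + y * b.2) + r then (1 : ℝ) else 0) := by
    rw [card_filter]
    push_cast
    exact sum_congr rfl fun b _ => by simp only [hG]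
  rw [e1]
  unfold bx ar
  by_cases hq : p ∣ q
  · have hy : ¬ (p : ℤ) ∣ y := fun h => hL (hgy hq h)
    rw [sum_product]
    have h1 : ∀ x ∈ Icc u.1 v.1, ∑ z ∈ Icc u.2 v.2,
        (if (p : ℤ) ∣ (L : ℤ) * ((q : ℤ) * x + y * z) + r then (1 : ℝ) else 0) ≤
        ((v.2 : ℝ) - u.2 + 1) / p + 1 := by
      intro x _
      have h2 := cls p hp ((L : ℤ) * y) ((L : ℤ) * (q * x) + r) u.2 v.2
        (fun h => by
          rcases hpZ.dvd_or_dvd h with h | h
          · exact hLZ h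
          · exact hy h) b5
      rw [card_filter] at h2
      push_cast at h2
      refine le_trans (le_of_eq (sum_congr rfl fun z _ => ?_)) h2
      have e : (L : ℤ) * ((q : ℤ) * x + y * z) + r = (L : ℤ) * y * z + ((L : ℤ) * (q * x) + r) := by
        ring
      rw [e]
    refine (sum_le_sum h1).trans ?_
    rw [sum_const, nsmul_eq_mul, card_Icc_real _ _ b2]
    have e : ((v.1 : ℝ) - u.1 + 1) * (((v.2 : ℝ) - u.2 + 1) / p + 1) =
      ((v.1 : ℝ) - u.1 + 1) * ((v.2 : ℝ) - u.2 + 1) / p + ((v.1 : ℝ) - u.1 + 1) := by ring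
    rw [e]
    linarith
  · have hqZ : ¬ (p : ℤ) ∣ (q : ℤ) := fun h => hq (by exact_mod_cast h)
    rw [sum_product_right]
    have h1 : ∀ z ∈ Icc u.2 v.2, ∑ x ∈ Icc u.1 v.1,
        (if (p : ℤ) ∣ (L : ℤ) * ((q : ℤ) * x + y * z) + r then (1 : ℝ) else 0) ≤
        ((v.1 : ℝ) - u.1 + 1) / p + 1 := by
      intro z _
      have h2 := cls p hp ((L : ℤ) * q) ((L : ℤ) * (y * z) + r) u.1 v.1
        (fun h => by
          rcases hpZ.dvd_or_dvd h with h | h
          · exact hLZ h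
          · exact hqZ h) b2
      rw [card_filter] at h2
      push_cast at h2
      refine le_trans (le_of_eq (sum_congr rfl fun x _ => ?_)) h2
      have e : (L : ℤ) * ((q : ℤ) * x + y * z) + r = (L : ℤ) * q * x + ((L : ℤ) * (y * z) + r) := by
        ring
      rw [e]
    refine (sum_le_sum h1).trans ?_
    rw [sum_const, nsmul_eq_mul, card_Icc_real _ _ b5]
    have e : ((v.2 : ℝ) - u.2 + 1) * (((v.1 : ℝ) - u.1 + 1) / p + 1) =
      ((v.1 : ℝ) - u.1 + 1) * ((v.2 : ℝ) - u.2 + 1) / p + ((v.2 : ℝ) - u.2 + 1) := by ring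
    rw [e]
    linarith

/-! ### the comparison of the sums -/

lemma cmp {ι : Type} [DecidableEq ι] (B : Finset ι) (w : ι → ℝ) (P : ι → Prop) [DecidablePred P]
    (Z : Finset ι) (hw : ∀ b, 0 ≤ w b ∧ w b ≤ 1) (hZ : ∀ b ∈ B, ¬ P b → b ∈ Z) (R Pi Pi' : ℝ)
    (hR : 0 ≤ R) (h1 : 1 ≤ Pi') (h2 : Pi' ≤ Pi) :
    |R * Pi' * ∑ b ∈ B, (if P b then w b else 0) - R * ∑ b ∈ B, w b| ≤
      R * ((Pi - 1) * B.card + Z.card) := by
  set Sc := ∑ b ∈ B, (if P b then w b else 0) with hSc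
  set S := ∑ b ∈ B, w b with hS
  have h3 : 0 ≤ Sc := sum_nonneg fun b _ => by
    split_ifs
    · exact (hw b).1
    · exact le_rfl
  have h4 : Sc ≤ B.card := by
    rw [hSc, ← nsmul_one, ← sum_const]
    refine sum_le_sum fun b _ => ?_
    split_ifs
    · exact (hw b).2
    · exact zero_le_one
  have h5 : 0 ≤ S - Sc := by
    rw [hS, hSc, ← sum_sub_distrib]
    refine sum_nonneg fun b _ => ?_
    split_ifs
    · simp
    · simpa using (hw b).1
  have h6 : S - Sc ≤ Z.card := by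
    rw [hS, hSc, ← sum_sub_distrib]
    calc ∑ b ∈ B, (w b - if P b then w b else 0) ≤ ∑ b ∈ B, (if b ∈ Z then (1 : ℝ) else 0) := by
          refine sum_le_sum fun b hb => ?_
          by_cases hP : P b
          · rw [if_pos hP, sub_self]
            split_ifs <;> norm_num
          · rw [if_neg hP, if_pos (hZ b hb hP), sub_zero]
            exact (hw b).2
      _ = ((B.filter (fun b => b ∈ Z)).card : ℝ) := by
          rw [card_filter]; push_cast; rfl
      _ ≤ Z.card := by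
          have : (B.filter (fun b => b ∈ Z)).card ≤ Z.card :=
            card_le_card (fun b hb => (mem_filter.1 hb).2)
          exact_mod_cast this
  have e : R * Pi' * Sc - R * S = R * ((Pi' - 1) * Sc - (S - Sc)) := by ring
  rw [e, abs_mul, abs_of_nonneg hR]
  apply mul_le_mul_of_nonneg_left _ hR
  have hB : (0 : ℝ) ≤ B.card := Nat.cast_nonneg _
  have h7 : (Pi' - 1) * Sc ≤ (Pi - 1) * B.card :=
    mul_le_mul (by linarith) h4 h3 (by linarith)
  have h8 : 0 ≤ (Pi' - 1) * Sc := mul_nonneg (by linarith) h3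
  have hZ0 : (0 : ℝ) ≤ Z.card := Nat.cast_nonneg _
  rw [abs_le]
  constructor
  · nlinarith
  · linarith

/-! ### the function `rt` -/

lemma rt_eq (n : ℕ) (hn : n ≠ 0) : rt n = ∏ p ∈ n.primeFactors, (p : ℝ) / ((p : ℝ) - 1) := by
  have h1 := Nat.totient_eq_mul_prod_factors n
  have h2 : (Nat.totient n : ℝ) = n * ∏ p ∈ n.primeFactors, (1 - (p : ℝ)⁻¹) := by
    have h3 := congrArg (fun x : ℚ => (x : ℝ)) h1
    push_cast at h3
    exact h3
  have hn' : (n : ℝ) ≠ 0 := by exact_mod_cast hn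
  unfold rt
  rw [h2]
  have h3 : ∏ p ∈ n.primeFactors, (p : ℝ) / ((p : ℝ) - 1) =
      (∏ p ∈ n.primeFactors, (1 - (p : ℝ)⁻¹))⁻¹ := by
    rw [← prod_inv_distrib]
    refine prod_congr rfl fun p hp => ?_
    have hp2 : 2 ≤ p := (Nat.prime_of_mem_primeFactors hp).two_le
    have hp2' : (2 : ℝ) ≤ p := by exact_mod_cast hp2
    have h4 : (p : ℝ) - 1 ≠ 0 := by linarith
    have h5 : (p : ℝ) ≠ 0 := by linarith
    rw [inv_eq_one_div, inv_eq_one_div]
    field_simp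
  rw [h3, div_mul_eq_div_div, div_self hn', one_div]

lemma fac_ge {p : ℕ} (hp : p.Prime) : 1 ≤ (p : ℝ) / ((p : ℝ) - 1) := by
  have hp2' : (2 : ℝ) ≤ p := by exact_mod_cast hp.two_le
  rw [le_div_iff₀ (by linarith)]
  linarith

lemma rt_split (M N : ℕ) (hM : M ≠ 0) (hN : N ≠ 0) (h : ∀ p : ℕ, p.Prime → p ∣ M → p ∣ N) :
    rt N = rt M * ∏ p ∈ N.primeFactors.filter (fun p => ¬ p ∣ M), (p : ℝ) / ((p : ℝ) - 1) := by
  rw [rt_eq N hN, rt_eq M hM, ← prod_filter_mul_prod_filter_not N.primeFactors (fun p => p ∣ M)]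
  congr 1
  refine prod_congr ?_ fun _ _ => rfl
  ext p
  rw [mem_filter, Nat.mem_primeFactors, Nat.mem_primeFactors]
  constructor
  · rintro ⟨⟨h1, _, _⟩, h2⟩
    exact ⟨h1, h2, hM⟩
  · rintro ⟨h1, h2, _⟩
    exact ⟨⟨h1, h p h1 h2, hN⟩, h2⟩

lemma one_le_rt (n : ℕ) (hn : n ≠ 0) : 1 ≤ rt n := by
  rw [rt_eq n hn]
  exact one_le_prod fun p hp => fac_ge (Nat.prime_of_mem_primeFactors hp)

lemma rt_le (n : ℕ) (hn : n ≠ 0) : rt n ≤ n := by
  unfold rt
  have h1 : 1 ≤ Nat.totient n := Nat.totient_pos.2 (Nat.pos_of_ne_zero hn)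
  exact div_le_self (Nat.cast_nonneg _) (by exact_mod_cast h1)

/-! ### the bad points -/

lemma ar_nonneg (H : ℕ) (u v : ℤ × ℤ) (hb : inbox H u v) : 0 ≤ ar u v := by
  rw [← card_bx H u v hb]
  exact Nat.cast_nonneg _

/-- the bad points -/
noncomputable def Zs (u v : ℤ × ℤ) (s : ℤ) (L q : ℕ) (y y' r r' : ℤ) (P : Finset ℕ) :
    Finset (ℤ × ℤ) := by
  classical
  exact P.biUnion (fun p => (bx u v).filter (fun b => ¬ p ∣ L ∧
    ((p : ℤ) ∣ G s L q y r b ∨ (p : ℤ) ∣ G s L q y' r' b)))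

lemma card_Zs (H : ℕ) (u v : ℤ × ℤ) (hb : inbox H u v) (s : ℤ) (hs : s = 1 ∨ s = -1) (L q : ℕ)
    (y y' r r' : ℤ) (hgy : ∀ p : ℕ, p.Prime → p ∣ q → (p : ℤ) ∣ y → p ∣ L)
    (hgy' : ∀ p : ℕ, p.Prime → p ∣ q → (p : ℤ) ∣ y' → p ∣ L)
    (P : Finset ℕ) (hP : ∀ p ∈ P, p.Prime) :
    ((Zs u v s L q y y' r r' P).card : ℝ) ≤
      (∑ p ∈ P, 2 / (p : ℝ)) * ar u v + P.card * (4 * H + 2) := by
  classical
  have har := ar_nonneg H u v hb
  have h1 : ∀ p ∈ P, (((bx u v).filter (fun b => ¬ p ∣ L ∧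
      ((p : ℤ) ∣ G s L q y r b ∨ (p : ℤ) ∣ G s L q y' r' b))).card : ℝ) ≤
      2 / (p : ℝ) * ar u v + (4 * H + 2) := by
    intro p hp
    have hpp := hP p hp
    by_cases hL : p ∣ L
    · have h2 : (bx u v).filter (fun b => ¬ p ∣ L ∧
          ((p : ℤ) ∣ G s L q y r b ∨ (p : ℤ) ∣ G s L q y' r' b)) = ∅ := by
        rw [eq_empty_iff_forall_notMem]
        intro b hb
        exact (mem_filter.1 hb).2.1 hL
      rw [h2, card_empty, Nat.cast_zero]
      positivity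
    · have h2 : (bx u v).filter (fun b => ¬ p ∣ L ∧
          ((p : ℤ) ∣ G s L q y r b ∨ (p : ℤ) ∣ G s L q y' r' b)) ⊆
          (bx u v).filter (fun b => (p : ℤ) ∣ G s L q y r b) ∪
          (bx u v).filter (fun b => (p : ℤ) ∣ G s L q y' r' b) := by
        intro b hb
        rw [mem_filter] at hb
        rw [mem_union, mem_filter, mem_filter]
        rcases hb.2.2 with h | h
        · exact Or.inl ⟨hb.1, h⟩
        · exact Or.inr ⟨hb.1, h⟩
      have h3 := (card_le_card h2).trans (card_union_le _ _)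
      have h4 := cntG H u v hb s hs L q y r p hpp hL (hgy p hpp)
      have h5 := cntG H u v hb s hs L q y' r' p hpp hL (hgy' p hpp)
      have h6 : (((bx u v).filter (fun b => ¬ p ∣ L ∧
          ((p : ℤ) ∣ G s L q y r b ∨ (p : ℤ) ∣ G s L q y' r' b))).card : ℝ) ≤
          (((bx u v).filter (fun b => (p : ℤ) ∣ G s L q y r b)).card : ℝ) +
          (((bx u v).filter (fun b => (p : ℤ) ∣ G s L q y' r' b)).card : ℝ) := by
        exact_mod_cast h3
      have e : 2 / (p : ℝ) * ar u v = ar u v / p + ar u v / p := by ring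
      rw [e]
      linarith
  unfold Zs
  have h2 : (((P.biUnion (fun p => (bx u v).filter (fun b => ¬ p ∣ L ∧
      ((p : ℤ) ∣ G s L q y r b ∨ (p : ℤ) ∣ G s L q y' r' b)))).card : ℕ) : ℝ) ≤
      ∑ p ∈ P, (((bx u v).filter (fun b => ¬ p ∣ L ∧
      ((p : ℤ) ∣ G s L q y r b ∨ (p : ℤ) ∣ G s L q y' r' b))).card : ℝ) := by
    exact_mod_cast card_biUnion_le
  refine h2.trans ((sum_le_sum h1).trans (le_of_eq ?_))
  rw [sum_add_distrib, ← sum_mul, sum_const, nsmul_eq_mul]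

lemma not_dvd_G {s : ℤ} (hs : s = 1 ∨ s = -1) {L q : ℕ} {y r : ℤ} (co : IsCoprime r (L : ℤ))
    {p : ℕ} (hp : p.Prime) (hpL : p ∣ L) (b : ℤ × ℤ) : ¬ (p : ℤ) ∣ G s L q y r b := by
  intro h
  have hpZ : Prime (p : ℤ) := Nat.prime_iff_prime_int.1 hp
  have hLZ : (p : ℤ) ∣ (L : ℤ) := by exact_mod_cast hpL
  have h1 : (p : ℤ) ∣ (L : ℤ) * ((q : ℤ) * b.1 + y * b.2) + r := by
    unfold G at h
    rcases hs with rfl | rfl
    · rwa [one_mul] at h
    · rwa [neg_one_mul, dvd_neg] at h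
  have h2 : (p : ℤ) ∣ r := (dvd_add_right (hLZ.mul_right _)).1 h1
  exact hpZ.not_isUnit (co.isUnit_of_dvd' h2 hLZ)

lemma exists_prime_of_not_coprime {a : ℤ} {Q : ℕ} (h : ¬ IsCoprime a (Q : ℤ)) :
    ∃ p : ℕ, p.Prime ∧ (p : ℤ) ∣ a ∧ p ∣ Q := by
  rw [Int.isCoprime_iff_gcd_eq_one] at h
  obtain ⟨p, hp, hpd⟩ := Nat.exists_prime_and_dvd h
  refine ⟨p, hp, ?_, ?_⟩
  · exact (Int.natCast_dvd_natCast.2 hpd).trans (Int.gcd_dvd_left ..)
  · have h1 : (p : ℤ) ∣ (Q : ℤ) := (Int.natCast_dvd_natCast.2 hpd).trans (Int.gcd_dvd_right ..)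
    exact_mod_cast h1

lemma pos_01 (n : ℤ) : 0 ≤ pos n ∧ pos n ≤ 1 := by
  unfold pos
  split_ifs <;> norm_num

lemma ev (κ A : ℕ) : ∃ H3 : ℕ, ∀ H : ℕ, H3 ≤ H →
    24 * Real.log H ^ (4 * κ + A) ≤ H ∧ 2 ≤ Real.log H := by
  have h1 := (Real.isLittleO_pow_log_id_atTop (n := 4 * κ + A)).bound
    (show (0 : ℝ) < 1 / 24 by norm_num)
  have h2 := Real.tendsto_log_atTop.eventually (Filter.eventually_ge_atTop (2 : ℝ))
  have h3 := (tendsto_natCast_atTop_atTop (R := ℝ)).eventually (h1.and h2)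
  obtain ⟨H3, hH3⟩ := Filter.eventually_atTop.1 h3
  refine ⟨H3, fun H hH => ?_⟩
  obtain ⟨h4, h5⟩ := hH3 H hH
  refine ⟨?_, h5⟩
  rw [Real.norm_of_nonneg (by positivity), id, Real.norm_of_nonneg (by positivity)] at h4
  linarith

/-- **(LOC)** -/
theorem loc_ (h1 : S_PAIR) (h2 : S_SINGLE) : S_LOC := by
  classical
  intro κ A
  obtain ⟨H1, hH1⟩ := h1 κ (A + 1)
  obtain ⟨H2, hH2⟩ := h2 κ (A + 1)
  obtain ⟨H3, hH3⟩ := ev κ A
  refine ⟨max (max H1 H2) (max H3 1), ?_⟩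
  intro H hH s L q y y' r r' hyp u v hb M hM hMκ hML hLM
  have e1 : H1 ≤ H := le_trans (le_trans (le_max_left _ _) (le_max_left _ _)) hH
  have e2 : H2 ≤ H := le_trans (le_trans (le_max_right _ _) (le_max_left _ _)) hH
  have e3 : H3 ≤ H := le_trans (le_trans (le_max_left _ _) (le_max_right _ _)) hH
  have e4 : 1 ≤ H := le_trans (le_trans (le_max_right _ _) (le_max_right _ _)) hH
  obtain ⟨l1, l2⟩ := hH3 H e3
  have g1 := hH1 H e1 s L q y y' r r' hyp u v hb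
  have g2 := hH2 H e2 s L q y y' r r' hyp u v hb
  obtain ⟨hs, hL, hL', hq, hq', hy, hy', hr, hr', hne, co, co', gy, gy'⟩ := hyp
  set n : ℕ := q * (y - y').natAbs with hn
  have hd0 : (y - y').natAbs ≠ 0 := by
    intro h
    exact hne (by omega)
  have hn0 : n ≠ 0 := Nat.mul_ne_zero (by omega) hd0
  have hM0 : M ≠ 0 := by omega
  have hL0 : L ≠ 0 := by omega
  have hq0 : q ≠ 0 := by omega
  have hQn : L * q * (y - y').natAbs = L * n := by rw [hn, mul_assoc]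
  have hLn0 : L * n ≠ 0 := Nat.mul_ne_zero hL0 hn0
  have hLq0 : L * q ≠ 0 := Nat.mul_ne_zero hL0 hq0
  set P : Finset ℕ := n.primeFactors.filter (fun p => ¬ p ∣ M) with hP
  have hPp : ∀ p ∈ P, p.Prime := fun p hp => Nat.prime_of_mem_primeFactors (mem_filter.1 hp).1
  have hPQ : (L * n).primeFactors.filter (fun p => ¬ p ∣ M) = P := by
    ext p
    rw [hP, mem_filter, mem_filter, Nat.mem_primeFactors, Nat.mem_primeFactors]
    constructor
    · rintro ⟨⟨j1, j2, _⟩, j3⟩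
      refine ⟨⟨j1, ?_, hn0⟩, j3⟩
      rcases (Nat.Prime.dvd_mul j1).1 j2 with j | j
      · rcases hLM p j1 j with j4 | j4
        · exact absurd j4 j3
        · exact j4.mul_right _
      · exact j
    · rintro ⟨⟨j1, j2, _⟩, j3⟩
      exact ⟨⟨j1, j2.mul_left _, hLn0⟩, j3⟩
  have hPL : (L * q).primeFactors.filter (fun p => ¬ p ∣ M) ⊆ P := by
    intro p
    rw [hP, mem_filter, mem_filter, Nat.mem_primeFactors, Nat.mem_primeFactors]
    rintro ⟨⟨j1, j2, _⟩, j3⟩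
    refine ⟨⟨j1, ?_, hn0⟩, j3⟩
    have j5 : p ∣ q := by
      rcases (Nat.Prime.dvd_mul j1).1 j2 with j | j
      · rcases hLM p j1 j with j4 | j4
        · exact absurd j4 j3
        · exact j4
      · exact j
    exact j5.mul_right _
  set Pi : ℝ := ∏ p ∈ P, ((p : ℝ) / ((p : ℝ) - 1)) ^ 2 with hPi
  have hrtQ : rt (L * n) ^ 2 = rt M ^ 2 * Pi := by
    rw [rt_split M (L * n) hM0 hLn0 (fun p j1 j2 => (hML p j1 j2).mul_right _), hPQ, mul_pow,
      ← prod_pow]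
  set Pi' : ℝ := ∏ p ∈ (L * q).primeFactors.filter (fun p => ¬ p ∣ M), (p : ℝ) / ((p : ℝ) - 1)
    with hPi'
  have hrtL : rt (L * q) = rt M * Pi' :=
    rt_split M (L * q) hM0 hLq0 (fun p j1 j2 => (hML p j1 j2).mul_right _)
  have hPi1 : 1 ≤ Pi := one_le_prod fun p hp => one_le_pow₀ (fac_ge (hPp p hp))
  have hPi'1 : 1 ≤ Pi' := one_le_prod fun p hp =>
    fac_ge (Nat.prime_of_mem_primeFactors (mem_filter.1 hp).1)
  have hPi'le : Pi' ≤ Pi := by
    calc Pi' ≤ ∏ p ∈ P, (p : ℝ) / ((p : ℝ) - 1) := by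
          rw [← prod_sdiff hPL, ← hPi']
          have j : 1 ≤ ∏ p ∈ P \ (L * q).primeFactors.filter (fun p => ¬ p ∣ M),
              (p : ℝ) / ((p : ℝ) - 1) :=
            one_le_prod fun p hp => fac_ge (hPp p (mem_sdiff.1 hp).1)
          nlinarith
      _ ≤ Pi := by
          refine prod_le_prod (fun p hp => zero_le_one.trans (fac_ge (hPp p hp))) fun p hp => ?_
          have j := fac_ge (hPp p hp)
          nlinarith
  set Z := Zs u v s L q y y' r r' P with hZ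
  have hZc := card_Zs H u v hb s hs L q y y' r r' gy gy' P hPp
  rw [← hZ] at hZc
  have har := ar_nonneg H u v hb
  have hcard := card_bx H u v hb
  have hrt1 := one_le_rt M hM0
  have hrtM : rt M ≤ Real.log H ^ κ := (rt_le M hM0).trans hMκ
  -- the bad points
  have hbad : ∀ b ∈ bx u v, ∀ p : ℕ, p.Prime → p ∣ L * n →
      ((p : ℤ) ∣ G s L q y r b ∨ (p : ℤ) ∣ G s L q y' r' b) → b ∈ Z := by
    intro b hbb p j1 j2 j3
    have j4 : ¬ p ∣ L := by
      intro j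
      rcases j3 with j3 | j3
      · exact not_dvd_G hs co j1 j b j3
      · exact not_dvd_G hs co' j1 j b j3
    have j5 : p ∣ n := by
      rcases (Nat.Prime.dvd_mul j1).1 j2 with j | j
      · exact absurd j j4
      · exact j
    have j6 : p ∈ P := by
      rw [hP, mem_filter, Nat.mem_primeFactors]
      exact ⟨⟨j1, j5, hn0⟩, fun j => j4 (hML p j1 j)⟩
    rw [hZ]
    unfold Zs
    rw [mem_biUnion]
    exact ⟨p, j6, mem_filter.2 ⟨hbb, j4, j3⟩⟩
  have hw : ∀ b : ℤ × ℤ, 0 ≤ pos (G s L q y r b) * pos (G s L q y' r' b) ∧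
      pos (G s L q y r b) * pos (G s L q y' r' b) ≤ 1 := by
    intro b
    have j1 := pos_01 (G s L q y r b)
    have j2 := pos_01 (G s L q y' r' b)
    exact ⟨mul_nonneg j1.1 j2.1, mul_le_one₀ j1.2 j2.1 j2.2⟩
  have c1 := cmp (bx u v) (fun b => pos (G s L q y r b) * pos (G s L q y' r' b))
    (fun b => IsCoprime (G s L q y r b * G s L q y' r' b) ((L * n : ℕ) : ℤ)) Z hw
    (by
      intro b hbb hnc
      obtain ⟨p, j1, j2, j3⟩ := exists_prime_of_not_coprime hnc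
      refine hbad b hbb p j1 j3 ?_
      exact (Nat.prime_iff_prime_int.1 j1).dvd_or_dvd j2)
    (rt M ^ 2) Pi Pi (by positivity) hPi1 le_rfl
  have c2 := cmp (bx u v) (fun b => pos (G s L q y r b) * pos (G s L q y' r' b))
    (fun b => IsCoprime (G s L q y r b) ((L * q : ℕ) : ℤ)) Z hw
    (by
      intro b hbb hnc
      obtain ⟨p, j1, j2, j3⟩ := exists_prime_of_not_coprime hnc
      refine hbad b hbb p j1 ?_ (Or.inl j2)
      rw [← hQn]
      exact j3.mul_right _)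
    (rt M) Pi Pi' (by linarith) hPi'1 hPi'le
  rw [← hrtQ] at c1
  rw [← hrtL] at c2
  rw [hQn] at g1
  rw [hcard] at c1 c2
  -- the error terms
  set l : ℝ := Real.log H with hl
  have hl0 : 0 < l := by linarith
  have hHR : (1 : ℝ) ≤ H := by exact_mod_cast e4
  have hPn : (P.card : ℝ) ≤ 2 * (l ^ κ) ^ 2 := by
    have j1 : P.card ≤ n := by
      have j2 : P ⊆ Icc 1 n := by
        intro p hp
        have j3 := (mem_filter.1 hp).1
        rw [mem_Icc]
        exact ⟨(Nat.prime_of_mem_primeFactors j3).one_le, Nat.le_of_mem_primeFactors j3⟩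
      have j4 := card_le_card j2
      rw [Nat.card_Icc] at j4
      omega
    have j2 : (P.card : ℝ) ≤ n := by exact_mod_cast j1
    have j3 : (n : ℝ) = q * |(y : ℝ) - y'| := by
      rw [hn, Nat.cast_mul, Nat.cast_natAbs]
      push_cast
      rfl
    have j4 : |(y : ℝ) - y'| ≤ 2 * l ^ κ := by
      refine (abs_sub _ _).trans ?_
      linarith
    calc (P.card : ℝ) ≤ q * |(y : ℝ) - y'| := by rw [← j3]; exact j2
      _ ≤ l ^ κ * (2 * l ^ κ) := mul_le_mul hq' j4 (abs_nonneg _) (by positivity)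
      _ = 2 * (l ^ κ) ^ 2 := by ring
  have hlk : 1 ≤ l ^ κ := one_le_pow₀ (by linarith)
  have herr : (l ^ κ) ^ 2 * (P.card * (4 * H + 2)) + (H : ℝ) ^ 2 / l ^ (A + 1) ≤
      (H : ℝ) ^ 2 / l ^ A := by
    have j1 : (l ^ κ) ^ 2 * (P.card * (4 * H + 2)) ≤ (l ^ κ) ^ 2 * (2 * (l ^ κ) ^ 2 * (6 * H)) := by
      apply mul_le_mul_of_nonneg_left _ (by positivity)
      exact mul_le_mul hPn (by linarith) (by positivity) (by positivity)
    have j2 : (l ^ κ) ^ 2 * (2 * (l ^ κ) ^ 2 * (6 * H)) ≤ (H : ℝ) ^ 2 / l ^ A / 2 := by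
      rw [le_div_iff₀ (by norm_num), le_div_iff₀ (by positivity)]
      have j3 : l ^ (4 * κ + A) = (l ^ κ) ^ 2 * (l ^ κ) ^ 2 * l ^ A := by
        rw [pow_add, ← pow_mul, ← pow_add]
        congr 2
        ring
      calc (l ^ κ) ^ 2 * (2 * (l ^ κ) ^ 2 * (6 * H)) * 2 * l ^ A
          = 24 * l ^ (4 * κ + A) * H := by rw [j3]; ring
        _ ≤ H * H := mul_le_mul_of_nonneg_right l1 (by positivity)
        _ = (H : ℝ) ^ 2 := by ring
    have j4 : (H : ℝ) ^ 2 / l ^ (A + 1) ≤ (H : ℝ) ^ 2 / l ^ A / 2 := by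
      rw [pow_succ l A, ← div_div]
      exact div_le_div_of_nonneg_left (by positivity) (by norm_num) l2
    linarith
  have hV : V M n = Pi - 1 + ∑ p ∈ P, 2 / (p : ℝ) := rfl
  have hPc : (0 : ℝ) ≤ P.card * (4 * H + 2) := by positivity
  constructor
  · have j1 := abs_sub_le (∑ b ∈ bx u v, lam (G s L q y r b) * lam (G s L q y' r' b))
      (rt (L * n) ^ 2 * ∑ b ∈ bx u v,
      (if IsCoprime (G s L q y r b * G s L q y' r' b) ((L * n : ℕ) : ℤ) then
        pos (G s L q y r b) * pos (G s L q y' r' b) else 0))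
      (rt M ^ 2 * ∑ b ∈ bx u v, pos (G s L q y r b) * pos (G s L q y' r' b))
    refine j1.trans ((add_le_add g1 c1).trans ?_)
    have j2 : rt M ^ 2 * ((Pi - 1) * ar u v + Z.card) ≤
        rt M ^ 2 * V M n * ar u v + rt M ^ 2 * (P.card * (4 * H + 2)) := by
      have j3 : rt M ^ 2 * (Z.card : ℝ) ≤ rt M ^ 2 * ((∑ p ∈ P, 2 / (p : ℝ)) * ar u v +
        P.card * (4 * H + 2)) := mul_le_mul_of_nonneg_left hZc (by positivity)
      rw [hV]
      nlinarith
    have j4 : rt M ^ 2 * (P.card * (4 * H + 2)) ≤ (l ^ κ) ^ 2 * (P.card * (4 * H + 2)) :=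
      mul_le_mul_of_nonneg_right (pow_le_pow_left₀ (by linarith) hrtM 2) hPc
    linarith
  · have j1 := abs_sub_le (∑ b ∈ bx u v, lam (G s L q y r b) * pos (G s L q y' r' b))
      (rt (L * q) * ∑ b ∈ bx u v,
      (if IsCoprime (G s L q y r b) ((L * q : ℕ) : ℤ) then
        pos (G s L q y r b) * pos (G s L q y' r' b) else 0))
      (rt M * ∑ b ∈ bx u v, pos (G s L q y r b) * pos (G s L q y' r' b))
    refine j1.trans ((add_le_add g2 c2).trans ?_)
    have j2 : rt M * ((Pi - 1) * ar u v + Z.card) ≤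
        rt M * V M n * ar u v + rt M * (P.card * (4 * H + 2)) := by
      have j3 : rt M * (Z.card : ℝ) ≤ rt M * ((∑ p ∈ P, 2 / (p : ℝ)) * ar u v +
        P.card * (4 * H + 2)) := mul_le_mul_of_nonneg_left hZc (by linarith)
      rw [hV]
      nlinarith
    have j4 : rt M * (P.card * (4 * H + 2)) ≤ (l ^ κ) ^ 2 * (P.card * (4 * H + 2)) := by
      apply mul_le_mul_of_nonneg_right _ hPc
      nlinarith
    linarith

end Pool.Agent.N767.DC
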