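import Pool.Agent.N549.AB.Stm4

set_option autoImplicit false

/-! # AB/VAR: the second moment of the number of points from the pressure -/

namespace Pool.Agent.N767.DC

open Pool.Agent.N549.AB

/-- the weights -/
noncomputable def wt (D : ℝ) (p : ℕ → ℝ) (s : ℝ) (k : ℕ) : ℝ :=
  (s * Real.exp s / D) ^ k / k.factorial * p k

section

variable {D : ℝ} {p : ℕ → ℝ} (hD : 0 < D) (hp0 : p 0 = 1) (hp : ∀ k, 0 ≤ p k ∧ p k ≤ 1)

include hD

lemma lam_pos {s : ℝ} (hs : 0 < s) : 0 < s * Real.exp s / D := by positivity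

include hp

lemma wt_nonneg {s : ℝ} (hs : 0 < s) (k : ℕ) : 0 ≤ wt D p s k := by
  unfold wt
  have := lam_pos hD hs
  have h2 := (hp k).1
  positivity

lemma wt_summable {s : ℝ} (hs : 0 < s) : Summable (wt D p s) := by
  refine Summable.of_nonneg_of_le (wt_nonneg hD hp hs) (fun k => ?_)
    (Real.summable_pow_div_factorial (s * Real.exp s / D))
  unfold wt
  have h1 : 0 ≤ (s * Real.exp s / D) ^ k / (k.factorial : ℝ) := by
    have := lam_pos hD hs
    positivity
  exact mul_le_of_le_one_right h1 (hp k).2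

include hp0

lemma one_le_Z {s : ℝ} (hs : 0 < s) : 1 ≤ ∑' k, wt D p s k := by
  have h1 : wt D p s 0 = 1 := by
    unfold wt
    simp [hp0]
  rw [← h1]
  exact (wt_summable hD hp hs).le_tsum 0 fun k _ => wt_nonneg hD hp hs k

end

/-- the function `x ^ 2 exp (- L x)` is decreasing -/
lemma decr {L K x : ℝ} (hK : 0 < K) (hL : 2 / K ≤ L) (hx : K ≤ x) :
    x ^ 2 * Real.exp (-(L * x)) ≤ K ^ 2 * Real.exp (-(L * K)) := by
  have h1 : x / K ≤ Real.exp (x / K - 1) := by
    have := Real.add_one_le_exp (x / K - 1)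
    linarith
  have h2 : 0 ≤ x / K := div_nonneg (hK.le.trans hx) hK.le
  have h3 : (x / K) ^ 2 ≤ Real.exp (L * (x - K)) := by
    calc (x / K) ^ 2 ≤ (Real.exp (x / K - 1)) ^ 2 := pow_le_pow_left₀ h2 h1 2
      _ = Real.exp (2 / K * (x - K)) := by
        rw [← Real.exp_nat_mul]
        congr 1
        push_cast
        field_simp
      _ ≤ Real.exp (L * (x - K)) := by
        apply Real.exp_le_exp.2
        exact mul_le_mul_of_nonneg_right hL (by linarith)
  have h4 : x ^ 2 ≤ K ^ 2 * Real.exp (L * (x - K)) := by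
    have e1 : x ^ 2 = K ^ 2 * (x / K) ^ 2 := by
      field_simp
    rw [e1]
    exact mul_le_mul_of_nonneg_left h3 (by positivity)
  calc x ^ 2 * Real.exp (-(L * x)) ≤ K ^ 2 * Real.exp (L * (x - K)) * Real.exp (-(L * x)) :=
        mul_le_mul_of_nonneg_right h4 (Real.exp_pos _).le
    _ = K ^ 2 * Real.exp (-(L * K)) := by
        rw [mul_assoc, ← Real.exp_add]
        congr 2
        ring

/-- **AB/VAR** -/
theorem var : S_VAR := by
  intro D e h W p hD he hh hh4 heh hp0 hp H s hs hsW hDs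
  obtain ⟨t, ht⟩ : ∃ t, t = (1 + h) * s := ⟨_, rfl⟩
  obtain ⟨K, hK⟩ : ∃ K, K = (1 + h) ^ 2 * s / D := ⟨_, rfl⟩
  obtain ⟨L, hL⟩ : ∃ L, L = Real.log (1 + h) + h * s := ⟨_, rfl⟩
  have h1h : 0 < 1 + h := by linarith
  have ht0 : 0 < t := by rw [ht]; positivity
  have hst : s ≤ t := by rw [ht]; nlinarith
  have htW : t ≤ W := by
    refine le_trans ?_ hsW
    rw [ht]
    nlinarith
  have hsW' : s ≤ W := hst.trans htW
  have hlog : h / (1 + h) ≤ Real.log (1 + h) := by
    have h2 := Real.one_sub_inv_le_log_of_pos h1h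
    have h3 : h / (1 + h) = 1 - (1 + h)⁻¹ := by
      field_simp
      ring
    rw [h3]
    exact h2
  have hLge : h / (1 + h) + h * s ≤ L := by
    rw [hL]
    linarith
  have hsD : 1 / h ^ 3 ≤ s / D := by
    rw [div_le_div_iff₀ (by positivity) hD]
    linarith
  have hKs : s / D ≤ K := by
    rw [hK]
    gcongr
    nlinarith
  have hK0 : 0 < K := by
    rw [hK]
    positivity
  have hKL : 2 / K ≤ L := by
    have h2 : 2 / K ≤ 2 * h ^ 3 := by
      rw [div_le_iff₀ hK0]
      have h3 : 1 / h ^ 3 ≤ K := hsD.trans hKs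
      have h4 : 1 ≤ h ^ 3 * K := by
        rw [div_le_iff₀ (by positivity)] at h3
        linarith
      linarith
    have h3 : 2 * h ^ 3 ≤ h / (1 + h) := by
      rw [le_div_iff₀ h1h]
      have h5 : h ^ 2 * (1 + h) ≤ 1 / 2 := by nlinarith
      nlinarith
    have h4 : 0 ≤ h * s := by positivity
    linarith
  -- comparison of the weights
  have hlam : s * Real.exp s / D = Real.exp (-L) * (t * Real.exp t / D) := by
    have e1 : Real.exp (-L) = (1 + h)⁻¹ * Real.exp (-(h * s)) := by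
      rw [hL, neg_add, Real.exp_add, Real.exp_neg (Real.log (1 + h)), Real.exp_log h1h]
    have e2 : Real.exp s = Real.exp (-(h * s)) * Real.exp t := by
      rw [← Real.exp_add, ht]
      congr 1
      ring
    rw [e1, e2, ht]
    field_simp
  have hwt : ∀ k : ℕ, wt D p s k = Real.exp (-(L * k)) * wt D p t k := by
    intro k
    unfold wt
    rw [hlam, mul_pow, ← Real.exp_nat_mul]
    have e1 : (k : ℝ) * -L = -(L * k) := by ring
    rw [e1]
    ring
  have hZs := one_le_Z hD hp0 hp hs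
  have hZt := one_le_Z hD hp0 hp ht0
  have hpt : ∀ k : ℕ, (k : ℝ) ^ 2 * wt D p s k ≤
      K ^ 2 * wt D p s k + K ^ 2 * Real.exp (-(L * K)) * wt D p t k := by
    intro k
    have a1 := wt_nonneg hD hp hs k
    have a2 := wt_nonneg hD hp ht0 k
    rcases le_total (k : ℝ) K with hk | hk
    · have a3 : (k : ℝ) ^ 2 ≤ K ^ 2 := pow_le_pow_left₀ (Nat.cast_nonneg k) hk 2
      have a4 := mul_le_mul_of_nonneg_right a3 a1
      have a5 : 0 ≤ K ^ 2 * Real.exp (-(L * K)) * wt D p t k := by positivity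
      linarith
    · have a3 := mul_le_mul_of_nonneg_right (decr hK0 hKL hk) a2
      have a4 : (k : ℝ) ^ 2 * wt D p s k = (k : ℝ) ^ 2 * Real.exp (-(L * k)) * wt D p t k := by
        rw [hwt k]
        ring
      have a5 : 0 ≤ K ^ 2 * wt D p s k := by positivity
      rw [a4]
      linarith
  have hS1 := (wt_summable hD hp hs).mul_left (K ^ 2)
  have hS2 := (wt_summable hD hp ht0).mul_left (K ^ 2 * Real.exp (-(L * K)))
  have hSum : Summable fun k : ℕ => (k : ℝ) ^ 2 * wt D p s k :=
    Summable.of_nonneg_of_le (fun k => mul_nonneg (by positivity) (wt_nonneg hD hp hs k)) hpt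
      (hS1.add hS2)
  -- the tail
  have hHs := H s hs hsW'
  have hHt := H t ht0 htW
  change |D * Real.log (∑' k, wt D p s k) - (s + s ^ 2 / 2)| ≤ e * s at hHs
  change |D * Real.log (∑' k, wt D p t k) - (t + t ^ 2 / 2)| ≤ e * t at hHt
  obtain ⟨Zs, hZsd⟩ : ∃ Z, Z = ∑' k, wt D p s k := ⟨_, rfl⟩
  obtain ⟨Zt, hZtd⟩ : ∃ Z, Z = ∑' k, wt D p t k := ⟨_, rfl⟩
  rw [← hZsd] at hHs hZs
  rw [← hZtd] at hHt hZt
  rw [abs_le] at hHs hHt
  have htail : Real.exp (-(L * K)) * Zt ≤ h * Zs := by
    have b1 : D * (Real.log Zt - Real.log Zs - L * K) ≤ -(h ^ 2 * s / 2) := by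
      have c1 : D * (L * K) = L * ((1 + h) ^ 2 * s) := by
        rw [hK]
        field_simp
      have c2 : (h / (1 + h) + h * s) * ((1 + h) ^ 2 * s) ≤ L * ((1 + h) ^ 2 * s) :=
        mul_le_mul_of_nonneg_right hLge (by positivity)
      have c3 : (h / (1 + h) + h * s) * ((1 + h) ^ 2 * s) =
          h * (1 + h) * s + h * (1 + h) ^ 2 * s ^ 2 := by
        field_simp
      have c4 : D * (Real.log Zt - Real.log Zs - L * K) =
          D * Real.log Zt - D * Real.log Zs - D * (L * K) := by ring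
      have c5 : e * t + e * s ≤ h ^ 2 * s / 2 := by
        rw [ht]
        have : e * ((1 + h) * s) + e * s = e * ((2 + h) * s) := by ring
        rw [this]
        calc e * ((2 + h) * s) ≤ h ^ 2 / 48 * ((9 / 4) * s) := by
              apply mul_le_mul heh _ (by positivity) (by positivity)
              exact mul_le_mul_of_nonneg_right (by linarith) hs.le
          _ ≤ h ^ 2 * s / 2 := by
              have : 0 ≤ h ^ 2 * s := by positivity
              linarith
      have c6 : t + t ^ 2 / 2 - (s + s ^ 2 / 2) - (h * (1 + h) * s + h * (1 + h) ^ 2 * s ^ 2) =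
          -(h ^ 2 * s) - s ^ 2 * (3 / 2 * h ^ 2 + h ^ 3) := by
        rw [ht]
        ring
      have c7 : 0 ≤ s ^ 2 * (3 / 2 * h ^ 2 + h ^ 3) := by positivity
      rw [c4, c1]
      linarith [hHs.1, hHt.2]
    have b2 : Real.log Zt - Real.log Zs - L * K ≤ -(1 / (2 * h)) := by
      have d1 : Real.log Zt - Real.log Zs - L * K ≤ -(h ^ 2 * s / 2) / D := by
        rw [le_div_iff₀ hD]
        linarith
      have d2 : 1 / (2 * h) ≤ h ^ 2 * s / 2 / D := by
        rw [div_le_div_iff₀ (by positivity) hD]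
        nlinarith
      have d3 : -(h ^ 2 * s / 2) / D = -(h ^ 2 * s / 2 / D) := by ring
      linarith
    have b3 : Real.exp (-(1 / (2 * h))) ≤ h := by
      have d1 : 2 ≤ 1 / (2 * h) := by
        rw [le_div_iff₀ (by positivity)]
        linarith
      have d2 := Real.quadratic_le_exp_of_nonneg (x := 1 / (2 * h)) (by positivity)
      have d3 : 1 / h ≤ Real.exp (1 / (2 * h)) := by
        have : 1 / h = 2 * (1 / (2 * h)) := by
          field_simp
        rw [this]
        nlinarith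
      rw [Real.exp_neg]
      rw [inv_le_comm₀ (Real.exp_pos _) hh]
      rw [← one_div]
      exact d3
    have hZs0 : 0 < Zs := by linarith
    have hZt0 : 0 < Zt := by linarith
    calc Real.exp (-(L * K)) * Zt = Real.exp (Real.log Zt - Real.log Zs - L * K) * Zs := by
          rw [show Real.log Zt - Real.log Zs - L * K = -(L * K) + Real.log Zt - Real.log Zs by ring,
            Real.exp_sub, Real.exp_add, Real.exp_log hZt0, Real.exp_log hZs0]
          field_simp
      _ ≤ Real.exp (-(1 / (2 * h))) * Zs :=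
          mul_le_mul_of_nonneg_right (Real.exp_le_exp.2 b2) hZs0.le
      _ ≤ h * Zs := mul_le_mul_of_nonneg_right b3 hZs0.le
  refine ⟨hSum, ?_⟩
  change ∑' k : ℕ, (k : ℝ) ^ 2 * wt D p s k ≤ (1 + 9 * h) * ((s / D) ^ 2 * ∑' k : ℕ, wt D p s k)
  calc ∑' k : ℕ, (k : ℝ) ^ 2 * wt D p s k ≤
        ∑' k : ℕ, (K ^ 2 * wt D p s k + K ^ 2 * Real.exp (-(L * K)) * wt D p t k) :=
        hSum.tsum_le_tsum hpt (hS1.add hS2)
    _ = K ^ 2 * Zs + K ^ 2 * (Real.exp (-(L * K)) * Zt) := by
        rw [hS1.tsum_add hS2, tsum_mul_left, tsum_mul_left, ← hZsd, ← hZtd]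
        ring
    _ ≤ K ^ 2 * Zs + K ^ 2 * (h * Zs) := by
        gcongr
    _ = (1 + h) ^ 5 * ((s / D) ^ 2 * Zs) := by
        rw [hK]
        ring
    _ ≤ (1 + 9 * h) * ((s / D) ^ 2 * Zs) := by
        have hZs0 : 0 < Zs := by linarith
        apply mul_le_mul_of_nonneg_right _ (by positivity)
        have f1 : h ^ 2 ≤ h / 4 := by nlinarith
        have f2 : h ^ 3 ≤ h / 16 := by nlinarith
        have f3 : h ^ 4 ≤ h / 64 := by nlinarith
        have f4 : h ^ 5 ≤ h / 256 := by nlinarith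
        nlinarith
    _ = _ := by rw [hZsd]

end Pool.Agent.N767.DC
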